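import Pool.Agent.Lib.Amenable.Basic
import Pool.Agent.Lib.Amalgam.Wr
import Pool.Agent.P.MP_71554c_al.Defs
import Pool.Agent.Lib.Amalgam.Setup

-- part Pool.Agent.P.MP_71554c_al.Swindle
section

set_option autoImplicit false

namespace Pool.Agent.P.MP_71554c_al

open Pool.Agent.Lib.Amalgam Pool.Agent.Lib.Amenable Function Subgroup

lemma amenable_of_le {G : Type} [Group G] {H K : Subgroup G} (h : H ≤ K) (hK : IsAmenable K) :
    IsAmenable H :=
  hK.of_injective (inclusion h) (inclusion_injective h)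

lemma amenable_range {G H : Type} [Group G] [Group H] (hG : IsAmenable G) (f : G →* H) :
    IsAmenable f.range :=
  hG.of_surjective f.rangeRestrict f.rangeRestrict_surjective

lemma amenable_zpowers {G : Type} [Group G] (g : G) : IsAmenable (zpowers g) := by
  rw [← range_zpowersHom]
  exact amenable_range amenable_int _

/-- a subgroup of a wreath product is amenable if its top and bottom parts are -/
lemma amenable_sub_wr {Ω B : Type} [Group B] (E : Subgroup (Wr Ω B))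
    (P : Subgroup (Equiv.Perm Ω)) (N : Subgroup (Ω → B)) (hP : IsAmenable P) (hN : IsAmenable N)
    (h1 : ∀ w ∈ E, w.p ∈ P) (h2 : ∀ w ∈ E, w.p = 1 → w.f ∈ N) : IsAmenable E := by
  refine amenable_of_ker (Wr.perm.comp E.subtype) (amenable_of_le ?_ hP) ?_
  · rintro _ ⟨w, rfl⟩
    exact h1 w w.2
  · refine hN.of_injective (MonoidHom.mk' (fun w => ⟨w.1.1.f, h2 _ w.1.2 w.2⟩) ?_) ?_
    · intro a b
      apply Subtype.ext
      funext ω
      have hb : b.1.1.p = 1 := b.2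
      simp [hb]
    · intro a b h
      have ha : a.1.1.p = 1 := a.2
      have hb : b.1.1.p = 1 := b.2
      apply Subtype.ext
      apply Subtype.ext
      exact Wr.ext (congrArg Subtype.val h) (ha.trans hb.symm)

lemma amenable_wr {Ω B : Type} [Group B] [Finite Ω] (hB : IsAmenable B) :
    IsAmenable (Wr Ω B) :=
  (amenable_sub_wr ⊤ ⊤ ⊤ amenable_of_finite ((hB.pi Ω).subgroup ⊤) (fun _ _ => trivial)
    (fun _ _ _ => trivial)).of_surjective (⊤ : Subgroup (Wr Ω B)).subtype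
    (fun w => ⟨⟨w, trivial⟩, rfl⟩)

/-- adjoining a root -/
lemma exists_root {D : Type} [Group D] (hD : IsAmenable D) (c : D) (m : ℤ) (hm : m ≠ 0) :
    ∃ (D' : Type) (_ : Group D') (j : D →* D') (y : D'),
      IsAmenable D' ∧ Injective j ∧ y ^ m = j c := by
  have hn : 0 < |m| := abs_pos.mpr hm
  generalize hN : |m| = n at hn
  let Θ : Multiplicative ℤ →* Wr (Set.Ico (0 : ℤ) n) D := Wr.ofCocycle
    (fun k ω => ⟨(ω.1 + k.toAdd) % n, Int.emod_nonneg _ hn.ne', Int.emod_lt_of_pos _ hn⟩)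
    (fun k ω => c ^ ((ω.1 + k.toAdd) / n))
    (fun ω => Subtype.ext (by simpa using Int.emod_eq_of_lt ω.2.1 ω.2.2))
    (fun k l ω => Subtype.ext (by
      simp only [toAdd_mul, Int.emod_add_emod]
      congr 1
      ring))
    (fun k l ω => by
      rw [← zpow_add]
      congr 1
      simp only [toAdd_mul]
      have e : ω.1 + (k.toAdd + l.toAdd) =
          ((ω.1 + l.toAdd) % n + k.toAdd) + ((ω.1 + l.toAdd) / n) * n := by
        have := Int.emod_add_ediv_mul (ω.1 + l.toAdd) n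
        linarith
      rw [e, Int.add_mul_ediv_right _ _ hn.ne'])
  refine ⟨_, inferInstance, Wr.inl.comp (MonoidHom.mk' (fun d _ => d) (fun _ _ => rfl)),
    Θ (Multiplicative.ofAdd m.sign), amenable_wr hD, ?_, ?_⟩
  · intro a b h
    exact congrFun (congrArg Wr.f h) ⟨0, le_rfl, hn⟩
  · rw [← map_zpow, ← ofAdd_zsmul, smul_eq_mul, Int.mul_sign_self, Int.natCast_natAbs, hN]
    ext ω
    · change c ^ ((ω.1 + n) / n) = c
      have : (ω.1 + n) / n = 1 := by
        have e : ω.1 + n = ω.1 + 1 * n := by ring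
        rw [e, Int.add_mul_ediv_right _ _ hn.ne', Int.ediv_eq_zero_of_lt ω.2.1 ω.2.2, zero_add]
      rw [this, zpow_one]
    · change (ω.1 + n) % n = ω.1
      rw [Int.add_emod_right, Int.emod_eq_of_lt ω.2.1 ω.2.2]

instance finSupp_normal (X G : Type) [Group G] : (finSupp X G).Normal :=
  ⟨fun f hf g => Set.Finite.subset hf (fun x hx h => hx (by simp [h]))⟩

/-- the Hilbert hotel -/
lemma swindle {A D : Type} [Group A] [Group D] (hD : IsAmenable D) (ι : A →* D)
    (hι : Injective ι) (α : A →* Multiplicative ℤ) (z y : D) :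
    ∃ (D' : Type) (_ : Group D') (ι' : A →* D') (z' : D'), IsAmenable D' ∧ Injective ι' ∧
      (∀ x, IsConj (ι x) (z ^ (α x).toAdd) → IsConj (ι' x) (z' ^ (α x).toAdd)) ∧
      (∀ x, ι x = y ^ (α x).toAdd → IsConj (ι' x) (z' ^ (α x).toAdd)) := by
  classical
  let ζ : ℤ → D := fun i => if i < 0 then y else z
  have hζ : ∀ n : ℤ, {i | ζ (i + n) ≠ ζ i}.Finite := by
    intro n
    refine (Set.finite_Icc (-|n|) |n|).subset (fun i hi => ?_)
    by_contra hc
    apply hi
    simp only [Set.mem_Icc, not_and_or, not_le] at hc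
    have := le_abs_self n
    have := neg_abs_le n
    simp only [ζ]
    rcases hc with hc | hc
    · rw [if_pos (by omega), if_pos (by omega)]
    · rw [if_neg (by omega), if_neg (by omega)]
  let E : Subgroup (Wr ℤ D) :=
    { carrier := {w | (∃ n : ℤ, ∀ i, w.p i = i + n) ∧ ∃ k : ℤ, {i | w.f i ≠ ζ i ^ k}.Finite}
      one_mem' := ⟨⟨0, by simp⟩, 0, by simp⟩
      mul_mem' := by
        rintro a b ⟨⟨n, hn⟩, k, hk⟩ ⟨⟨n', hn'⟩, k', hk'⟩
        refine ⟨⟨n' + n, fun i => by simp [hn, hn', add_assoc]⟩, k + k', ?_⟩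
        refine (((hk.preimage (f := fun i => i + n') (add_left_injective n').injOn).union
          hk').union (hζ n')).subset (fun i hi => ?_)
        by_contra hc
        simp only [Set.mem_union, Set.mem_preimage, Set.mem_ofPred_eq, not_or, not_not] at hc
        apply hi
        rw [Wr.mul_f, hn', hc.1.1, hc.1.2, hc.2, zpow_add]
      inv_mem' := by
        rintro a ⟨⟨n, hn⟩, k, hk⟩
        have hinv : ∀ i, a.p⁻¹ i = i + -n := fun i => by
          rw [Equiv.Perm.inv_eq_iff_eq, hn]; ring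
        refine ⟨⟨-n, hinv⟩, -k, ?_⟩
        refine ((hk.preimage (f := fun i => i + -n) (add_left_injective (-n)).injOn).union
          (hζ (-n))).subset (fun i hi => ?_)
        by_contra hc
        simp only [Set.mem_union, Set.mem_preimage, Set.mem_ofPred_eq, not_or, not_not] at hc
        apply hi
        rw [Wr.inv_f, hinv, hc.1, hc.2, zpow_neg] }
  let π := QuotientGroup.mk' (finSupp ℤ D)
  have hE : IsAmenable E := by
    refine amenable_sub_wr E (zpowers (Equiv.addRight (1 : ℤ))) ((zpowers (π ζ)).comap π)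
      (amenable_zpowers _) ?_ ?_ ?_
    · refine amenable_of_ker (π.comp ((zpowers (π ζ)).comap π).subtype)
        (amenable_of_le ?_ (amenable_zpowers (π ζ))) ?_
      · rintro _ ⟨w, rfl⟩
        exact w.2
      · refine (hD.of_finSupp ℤ).of_injective
          (MonoidHom.mk' (fun w => ⟨w.1.1, (QuotientGroup.eq_one_iff _).mp w.2⟩)
            (fun _ _ => rfl)) ?_
        intro a b h
        have h' : a.1.1 = b.1.1 := congrArg (fun w : finSupp ℤ D => w.1) h
        exact Subtype.ext (Subtype.ext h')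
    · rintro w ⟨⟨n, hn⟩, -⟩
      refine mem_zpowers_iff.mpr ⟨n, ?_⟩
      ext i
      rw [Equiv.zsmul_addRight, hn]
      simp
    · rintro w ⟨-, k, hk⟩ -
      refine mem_zpowers_iff.mpr ⟨k, ?_⟩
      rw [← map_zpow]
      refine QuotientGroup.eq.mpr (hk.subset (fun i hi h => hi ?_))
      simp [h]
  let g : A → ℤ → D := fun x i =>
    if i < 0 then y ^ (α x).toAdd else if i = 0 then ι x else z ^ (α x).toAdd
  have hg : ∀ x, Wr.inl (g x) ∈ E := fun x => ⟨⟨0, by simp⟩, (α x).toAdd,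
    (Set.finite_singleton 0).subset (fun i hi => by
      by_contra hc
      apply hi
      simp only [Wr.inl_f, g, ζ, if_neg (show ¬ i = 0 from hc)]
      split_ifs <;> rfl)⟩
  have hz : Wr.inl ζ ∈ E := ⟨⟨0, by simp⟩, 1, by simp⟩
  refine ⟨E, inferInstance, MonoidHom.mk' (fun x => ⟨Wr.inl (g x), hg x⟩) (fun a b => ?_),
    ⟨Wr.inl ζ, hz⟩, hE, fun a b h => ?_, fun x hx => ?_, fun x hx => ?_⟩
  · apply Subtype.ext
    simp only [coe_mul, ← map_mul]
    congr 1
    funext i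
    simp only [g, Pi.mul_apply, map_mul, toAdd_mul, zpow_add]
    split_ifs <;> rfl
  · have := congrFun (congrArg (fun w : E => w.1.f) h) 0
    exact hι (by simpa [g] using this)
  · obtain ⟨u, hu⟩ := isConj_iff.mp hx
    have hu' : Wr.inl (Pi.mulSingle (0 : ℤ) u) ∈ E := ⟨⟨0, by simp⟩, 0,
      (Set.finite_singleton 0).subset (fun i hi => by
        by_contra hc
        apply hi
        simp [Pi.mulSingle_eq_of_ne (show i ≠ 0 from hc)])⟩
    refine isConj_iff.mpr ⟨⟨_, hu'⟩, Subtype.ext ?_⟩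
    simp only [MonoidHom.mk'_apply, coe_mul, coe_inv, SubgroupClass.coe_zpow, ← map_zpow,
      ← map_inv, ← map_mul]
    congr 1
    funext i
    by_cases h0 : i = 0
    · subst h0
      simp [g, ζ, hu]
    · simp only [Pi.mul_apply, Pi.inv_apply, Pi.mulSingle_eq_of_ne h0, one_mul, inv_one, mul_one,
        g, ζ, if_neg h0, Pi.pow_apply]
      split_ifs <;> rfl
  · have hs : (⟨fun _ => 1, Equiv.addRight (-1)⟩ : Wr ℤ D) ∈ E := ⟨⟨-1, by simp⟩, 0, by simp⟩
    refine isConj_iff.mpr ⟨⟨_, hs⟩, Subtype.ext ?_⟩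
    simp only [MonoidHom.mk'_apply, coe_mul, coe_inv, SubgroupClass.coe_zpow, ← map_zpow]
    rw [mul_inv_eq_iff_eq_mul]
    ext i
    · simp only [Wr.mul_f, Wr.inl_f, one_mul, mul_one, Equiv.coe_addRight, g, ζ, Pi.pow_apply]
      by_cases h1 : i < 0
      · rw [if_pos h1, if_pos (by omega)]
      · by_cases h2 : i = 0
        · rw [if_neg h1, if_pos h2, if_pos (by omega), hx]
        · rw [if_neg h1, if_neg h2, if_neg (by omega)]
    · simp only [Wr.mul_p, Wr.inl_p, mul_one, one_mul]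

/-- finitely many elements of nonzero height become conjugate to powers of one element -/
lemma conj_all {A : Type} [Group A] (hA : IsAmenable A) (α : A →* Multiplicative ℤ) (S : Set A)
    (hS : S.Finite) (h : ∀ s ∈ S, (α s).toAdd ≠ 0) :
    ∃ (B : Type) (_ : Group B) (ι : A →* B) (z : B), IsAmenable B ∧ Injective ι ∧
      ∀ s ∈ S, IsConj (ι s) (z ^ (α s).toAdd) := by
  induction S, hS using Set.Finite.induction_on with
  | empty => exact ⟨A, inferInstance, MonoidHom.id A, 1, hA, injective_id, by simp⟩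
  | @insert t S _ _ ih =>
    obtain ⟨B, _, ι, z, hB, hι, hc⟩ := ih (fun s hs => h s (Or.inr hs))
    obtain ⟨D, _, j, y, hD, hj, hy⟩ := exists_root hB (ι t) _ (h t (Or.inl rfl))
    obtain ⟨D', _, ι', z', hD', hι', h1, h2⟩ := swindle hD (j.comp ι) (hj.comp hι) α (j z) y
    refine ⟨D', inferInstance, ι', z', hD', hι', ?_⟩
    rintro s (rfl | hs)
    · exact h2 _ hy.symm
    · apply h1
      rw [← map_zpow]
      exact j.map_isConj (hc s hs)

end Pool.Agent.P.MP_71554c_al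
end

-- part Pool.Agent.P.MP_71554c_al.Magnus
section

set_option autoImplicit false

namespace Pool.Agent.P.MP_71554c_al

open Pool.Agent.Lib.Amalgam Pool.Agent.Lib.Amenable Function Subgroup Monoid

variable {ι : Type} {G₀ : Type} [Group G₀] {G : ι → Type} [∀ i, Group (G i)]
  (φ : ∀ i, G₀ →* G i)

/-- reduced words: length, first index, last index, value; all suffixes satisfy `S` -/
inductive W (S : PushoutI φ → Prop) : ℕ → ι → ι → PushoutI φ → Prop
  | one (i : ι) (x : G i) (hx : x ∉ (φ i).range) (hS : S (PushoutI.of i x)) :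
      W S 1 i i (PushoutI.of i x)
  | cons (j : ι) (y : G j) (hy : y ∉ (φ j).range) (n : ℕ) (i l : ι) (g : PushoutI φ)
      (hji : j ≠ i) (hw : W S n i l g) (hS : S (PushoutI.of j y * g)) :
      W S (n + 1) j l (PushoutI.of j y * g)

variable {φ}

lemma W.mono {S S' : PushoutI φ → Prop} (h : ∀ g, S g → S' g) {n i l g} (hw : W φ S n i l g) :
    W φ S' n i l g := by
  induction hw with
  | one i x hx hS => exact W.one i x hx (h _ hS)
  | cons j y hy n i l g hji _ hS ih => exact W.cons j y hy n i l g hji ih (h _ hS)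

lemma W.prop {S : PushoutI φ → Prop} {n i l g} (hw : W φ S n i l g) : S g := by
  cases hw <;> assumption

lemma W.pos {S : PushoutI φ → Prop} {n i l g} (hw : W φ S n i l g) : 0 < n := by
  cases hw <;> omega

lemma W.snoc {n i l g} (hw : W φ (fun _ => True) n i l g) : n = 1 ∨
    ∃ (g' : PushoutI φ) (l' : ι) (x : G l), W φ (fun _ => True) (n - 1) i l' g' ∧ l' ≠ l ∧
      x ∉ (φ l).range ∧ g = g' * PushoutI.of l x := by
  induction hw with
  | one i x hx hS => exact Or.inl rfl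
  | cons j y hy n i l g hji hw hS ih =>
    right
    rcases ih with rfl | ⟨g', l', x, h1, h2, h3, rfl⟩
    · cases hw with
      | one _ x hx _ => exact ⟨_, j, x, W.one j y hy trivial, hji, hx, rfl⟩
      | cons _ _ _ _ _ _ _ _ hw' _ => exact absurd hw'.pos (lt_irrefl 0)
    · have hn := hw.pos
      obtain ⟨m, rfl⟩ : ∃ m, n = m + 1 := ⟨n - 1, by omega⟩
      exact ⟨_, l', x, W.cons j y hy _ i l' g' hji h1 trivial, h2, h3, (mul_assoc _ _ _).symm⟩

lemma normal_form (g : PushoutI φ) : ∃ h, g = PushoutI.base φ h ∨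
    ∃ n i l w, W φ (fun _ => True) n i l w ∧ g = PushoutI.base φ h * w := by
  let Good : PushoutI φ → Prop := fun g => ∃ h, g = PushoutI.base φ h ∨
    ∃ n i l w, W φ (fun _ => True) n i l w ∧ g = PushoutI.base φ h * w
  have hbase : ∀ k g, Good g → Good (PushoutI.base φ k * g) := by
    rintro k g ⟨h, rfl | ⟨n, i, l, w, hw, rfl⟩⟩
    · exact ⟨k * h, Or.inl (map_mul _ _ _).symm⟩
    · exact ⟨k * h, Or.inr ⟨n, i, l, w, hw, by rw [map_mul, mul_assoc]⟩⟩
  have hof0 : ∀ j (y : G j), Good (PushoutI.of j y) := by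
    intro j y
    by_cases hy : y ∈ (φ j).range
    · obtain ⟨k, rfl⟩ := hy
      exact ⟨k, Or.inl (PushoutI.of_apply_eq_base φ j k)⟩
    · exact ⟨1, Or.inr ⟨1, j, j, _, W.one j y hy trivial, by simp⟩⟩
  have hof1 : ∀ j (y : G j) n i l w, W φ (fun _ => True) n i l w → j ≠ i →
      Good (PushoutI.of j y * w) := by
    intro j y n i l w hw hji
    by_cases hy : y ∈ (φ j).range
    · obtain ⟨k, rfl⟩ := hy
      exact ⟨k, Or.inr ⟨n, i, l, w, hw, by rw [PushoutI.of_apply_eq_base]⟩⟩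
    · exact ⟨1, Or.inr ⟨n + 1, j, l, _, W.cons j y hy n i l w hji hw trivial, by simp⟩⟩
  have hof : ∀ j (y : G j) g, Good g → Good (PushoutI.of j y * g) := by
    rintro j y g ⟨h, rfl | ⟨n, i, l, w, hw, rfl⟩⟩
    · rw [← PushoutI.of_apply_eq_base φ j, ← map_mul]
      exact hof0 _ _
    · rw [← PushoutI.of_apply_eq_base φ j, ← mul_assoc, ← map_mul]
      by_cases hji : j = i
      · subst hji
        cases hw with
        | one _ x hx _ =>
          rw [← map_mul]
          exact hof0 _ _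
        | cons _ x hx n i' _ g' hji' hw' _ =>
          rw [← mul_assoc, ← map_mul]
          exact hof1 _ _ _ _ _ _ hw' hji'
      · exact hof1 _ _ _ _ _ _ hw hji
  have key : ∀ g g', Good g' → Good (g * g') := by
    intro g
    induction g using PushoutI.induction_on with
    | of i x => exact hof i x
    | base h => exact hbase h
    | mul x y hx hy => intro g' hg'; rw [mul_assoc]; exact hx _ (hy _ hg')
  simpa using key g 1 ⟨1, Or.inl (map_one _).symm⟩

/-- `Θ` separates `g` from the amalgamated subgroup -/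
def Sep {A : Type} [Group A] (Θ : PushoutI φ →* A) (g : PushoutI φ) : Prop :=
  ∀ h, Θ g ≠ Θ (PushoutI.base φ h)

lemma Sep.left {A B : Type} [Group A] [Group B] {Θ : PushoutI φ →* A} (Θ' : PushoutI φ →* B)
    {g : PushoutI φ} (h : Sep Θ g) : Sep (Θ.prod Θ') g :=
  fun k hk => h k (congrArg Prod.fst hk)

lemma Sep.right {A B : Type} [Group A] [Group B] (Θ : PushoutI φ →* A) {Θ' : PushoutI φ →* B}
    {g : PushoutI φ} (h : Sep Θ' g) : Sep (Θ.prod Θ') g :=
  fun k hk => h k (congrArg Prod.snd hk)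

lemma magnus {A : Type} [Group A] (hA : IsAmenable A) (Θ : PushoutI φ →* A) :
    ∃ (A' : Type) (_ : Group A') (Θ' : PushoutI φ →* A'), IsAmenable A' ∧
      ∀ n i l l' g (x : G l), W φ (Sep Θ) n i l' g → l' ≠ l → Sep Θ (PushoutI.of l x) →
        Sep Θ' (g * PushoutI.of l x) := by
  classical
  let A₀ : Subgroup A := (Θ.comp (PushoutI.base φ)).range
  let e : A ⧸ A₀ := ((1 : A) : A ⧸ A₀)
  have he : ∀ a : A, a • e = e ↔ a ∈ A₀ := by
    intro a
    simp only [e, MulAction.Quotient.smul_mk, smul_eq_mul, mul_one]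
    rw [eq_comm, QuotientGroup.eq]
    simp
  have hsep : ∀ g, Sep Θ g → Θ g • e ≠ e := by
    intro g hg h
    obtain ⟨k, hk⟩ := (he _).mp h
    exact hg k hk.symm
  let ρ : A →* Wr (ι × (A ⧸ A₀)) (Multiplicative ℤ) := Wr.ofCocycle
    (fun a ω => (ω.1, a • ω.2)) (fun _ _ => 1) (by simp) (by intros; simp [mul_smul]) (by simp)
  let u : ι → ι × (A ⧸ A₀) → Multiplicative ℤ := fun i ω =>
    if ω = (i, e) then Multiplicative.ofAdd 1 else 1
  let Φi : ∀ i, G i →* Wr (ι × (A ⧸ A₀)) (Multiplicative ℤ) := fun i =>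
    (MulAut.conj (Wr.inl (u i))).toMonoidHom.comp (ρ.comp (Θ.comp (PushoutI.of i)))
  have hp : ∀ i x ω, (Φi i x).p ω = (ω.1, Θ (PushoutI.of i x) • ω.2) := by
    intro i x ω
    simp [Φi, ρ]
  have hf : ∀ i x ω, (Φi i x).f ω = u i (ω.1, Θ (PushoutI.of i x) • ω.2) * (u i ω)⁻¹ := by
    intro i x ω
    simp [Φi, ρ]
  have hcomp : ∀ i, (Φi i).comp (φ i) = ρ.comp (Θ.comp (PushoutI.base φ)) := by
    intro i
    ext h ω : 3
    · rw [MonoidHom.comp_apply, hf, PushoutI.of_apply_eq_base]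
      have h1 : Θ (PushoutI.base φ h) • e = e := (he _).mpr ⟨h, rfl⟩
      have : u i (ω.1, Θ (PushoutI.base φ h) • ω.2) = u i ω := by
        simp only [u]
        congr 1
        rw [Prod.ext_iff, Prod.ext_iff]
        simp only
        rw [← h1, smul_left_cancel_iff, h1]
      rw [this]
      simp [ρ]
    · rw [MonoidHom.comp_apply, hp, PushoutI.of_apply_eq_base]
      rfl
  let Φ := PushoutI.lift Φi _ hcomp
  have hΦof : ∀ i x, Φ (PushoutI.of i x) = Φi i x := fun i x => PushoutI.lift_of _ _ _ _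
  have hΦbase : ∀ h, Φ (PushoutI.base φ h) = ρ (Θ (PushoutI.base φ h)) := fun h =>
    PushoutI.lift_base _ _ _ _
  let E : Subgroup (Wr (ι × (A ⧸ A₀)) (Multiplicative ℤ)) :=
    { carrier := {w | w.p ∈ (Wr.perm.comp ρ).range ∧ w.f ∈ finSupp _ _}
      one_mem' := ⟨one_mem _, one_mem _⟩
      mul_mem' := by
        rintro a b ⟨ha1, ha2⟩ ⟨hb1, hb2⟩
        refine ⟨mul_mem ha1 hb1, ?_⟩
        refine ((Set.Finite.preimage b.p.injective.injOn ha2).union hb2).subset (fun ω hω => ?_)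
        by_contra hc
        simp only [Set.mem_union, Set.mem_preimage, mem_mulSupport, not_or, not_not] at hc
        exact hω (by rw [Wr.mul_f, hc.1, hc.2, mul_one])
      inv_mem' := by
        rintro a ⟨ha1, ha2⟩
        refine ⟨inv_mem ha1, ?_⟩
        refine (Set.Finite.preimage (a.p⁻¹).injective.injOn ha2).subset (fun ω hω => ?_)
        by_contra hc
        simp only [Set.mem_preimage, mem_mulSupport, not_not] at hc
        exact hω (by rw [Wr.inv_f, hc, inv_one]) }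
  have hE : IsAmenable E := amenable_sub_wr E _ _ (amenable_range hA _)
    (amenable_int.of_finSupp _) (fun w hw => hw.1) (fun w hw _ => hw.2)
  have hρE : ∀ a, ρ a ∈ E := fun a => ⟨⟨a, rfl⟩, one_mem (finSupp _ _)⟩
  have huE : ∀ i, Wr.inl (u i) ∈ E := fun i => ⟨one_mem _,
    (Set.finite_singleton (i, e)).subset (fun ω hω => by
      by_contra hc
      exact hω (if_neg hc))⟩
  have hΦE : ∀ g, Φ g ∈ E := by
    intro g
    induction g using PushoutI.induction_on with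
    | of i x =>
      rw [hΦof]
      exact E.mul_mem (E.mul_mem (huE i) (hρE _)) (E.inv_mem (huE i))
    | base h => rw [hΦbase]; exact hρE _
    | mul x y hx hy => rw [map_mul]; exact E.mul_mem hx hy
  have hΦp : ∀ g ω, (Φ g).p ω = (ω.1, Θ g • ω.2) := by
    intro g
    induction g using PushoutI.induction_on with
    | of i x => rw [hΦof]; exact hp i x
    | base h => rw [hΦbase]; exact fun _ => rfl
    | mul x y hx hy =>
      intro ω
      rw [map_mul, Wr.mul_p, Equiv.Perm.mul_apply, hy, hx, map_mul, mul_smul]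
  have key : ∀ l n i l' g, W φ (Sep Θ) n i l' g → l' ≠ l → (Φ g).f (l, e) = 1 := by
    intro l n i l' g hw
    induction hw with
    | one i x hx hS =>
      intro h
      rw [hΦof, hf]
      simp [u, h.symm]
    | cons j y hy n i l' g hji hw hS ih =>
      intro h
      rw [map_mul, Wr.mul_f, ih h, hΦp, hΦof, hf, ← mul_smul, ← map_mul]
      simp only [u, Prod.mk.injEq, hsep _ hS, hsep _ hw.prop, and_false, if_false, inv_one,
        mul_one]
  refine ⟨E, inferInstance, Φ.codRestrict E hΦE, hE, ?_⟩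
  intro n i l l' g x hw hl hx h hh
  have h1 : Φ (g * PushoutI.of l x) = Φ (PushoutI.base φ h) := congrArg Subtype.val hh
  have h2 := congrFun (congrArg Wr.f h1) (l, (Θ (PushoutI.of l x))⁻¹ • e)
  rw [hΦbase, map_mul, Wr.mul_f, hΦp, smul_inv_smul, key l n i l' g hw hl, hΦof, hf,
    smul_inv_smul] at h2
  have h3 : (Θ (PushoutI.of l x))⁻¹ • e ≠ e := by
    rw [Ne, inv_smul_eq_iff]
    exact (hsep _ hx).symm
  simp [u, h3, ρ] at h2

theorem sep_words (h1 : ∀ i (x : G i), x ∉ (φ i).range →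
      ∃ (A : Type) (_ : Group A) (Θ : PushoutI φ →* A), IsAmenable A ∧ Sep Θ (PushoutI.of i x)) :
    ∀ n i l g, W φ (fun _ => True) n i l g →
      ∃ (A : Type) (_ : Group A) (Θ : PushoutI φ →* A), IsAmenable A ∧ W φ (Sep Θ) n i l g := by
  intro n
  induction n with
  | zero => intro i l g hw; exact absurd hw.pos (lt_irrefl 0)
  | succ n ih =>
    intro i l g hw
    have hsn := hw.snoc
    cases hw with
    | one _ x hx _ =>
      obtain ⟨A, _, Θ, hA, hΘ⟩ := h1 i x hx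
      exact ⟨A, inferInstance, Θ, hA, W.one i x hx hΘ⟩
    | cons _ y hy _ i' _ g₁ hji hw₁ _ =>
      have hn := hw₁.pos
      obtain ⟨g', l', x, k1, k2, k3, k4⟩ := hsn.resolve_left (by omega)
      obtain ⟨A₁, _, Θ₁, hA₁, hΘ₁⟩ := ih _ _ _ hw₁
      obtain ⟨A₂, _, Θ₂, hA₂, hΘ₂⟩ := ih _ _ _ k1
      obtain ⟨A₃, _, Θ₃, hA₃, hΘ₃⟩ := h1 l x k3
      obtain ⟨A₄, _, Θ₄, hA₄, hΘ₄⟩ := magnus (hA₂.prod hA₃) (Θ₂.prod Θ₃)
      have h4 := hΘ₄ _ _ _ _ _ x (hΘ₂.mono (fun _ h => h.left Θ₃)) k2 (hΘ₃.right Θ₂)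
      rw [← k4] at h4
      exact ⟨A₁ × A₄, inferInstance, Θ₁.prod Θ₄, hA₁.prod hA₄,
        W.cons i y hy _ i' l g₁ hji (hΘ₁.mono (fun _ h => h.left Θ₄)) (h4.right Θ₁)⟩

end Pool.Agent.P.MP_71554c_al
end

-- part Pool.Agent.P.MP_71554c_al.Main
section

set_option autoImplicit false

namespace Pool.Agent.P.MP_71554c_al

open Pool.Agent.Lib.Amalgam Pool.Agent.Lib.Amenable Function Subgroup Monoid

variable {ι : Type} {G₀ : Type} [Group G₀] {G : ι → Type} [∀ i, Group (G i)]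
  {φ : ∀ i, G₀ →* G i}

/-- Extension property: an amenable quotient of a finite index normal subgroup of a factor is
seen by an amenable quotient of the amalgam. -/
def Ext (φ : ∀ i, G₀ →* G i) (i : ι) (V : Subgroup (G i)) (s : G i) : Prop :=
  ∀ (A : Type) [Group A] (ψ : V →* A), IsAmenable A →
    ∃ (B : Type) (_ : Group B) (Θ : PushoutI φ →* B), IsAmenable B ∧
      ∀ g : G i, Θ (PushoutI.of i g) = 1 → ∃ h : s⁻¹ * g * s ∈ V, ψ ⟨_, h⟩ = 1

lemma sep_of_ext (i : ι) (hG : ResiduallyAmenable (G i)) (V : Subgroup (G i)) (s : G i)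
    (hE : Ext φ i V s) {A₀ : Type} [Group A₀] (hA₀ : IsAmenable A₀) (α : V →* A₀)
    (hα : ∀ h (hh : s⁻¹ * φ i h * s ∈ V), α ⟨_, hh⟩ = 1 → h = 1) (x : G i)
    (hx : x ∉ (φ i).range) :
    ∃ (A : Type) (_ : Group A) (Θ : PushoutI φ →* A), IsAmenable A ∧ Sep Θ (PushoutI.of i x) := by
  have hψ : ∃ (A : Type) (_ : Group A) (ψ : G i →* A), IsAmenable A ∧
      ∀ h (hh : s⁻¹ * ((φ i h)⁻¹ * x) * s ∈ V), α ⟨_, hh⟩ = 1 →
        ψ (s⁻¹ * ((φ i h)⁻¹ * x) * s) ≠ 1 := by
    by_cases hb : ∃ h, ∃ hh : s⁻¹ * ((φ i h)⁻¹ * x) * s ∈ V, α ⟨_, hh⟩ = 1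
    · obtain ⟨h₀, hh₀, e₀⟩ := hb
      obtain ⟨A, _, ψ, hA, hψ⟩ := hG (s⁻¹ * ((φ i h₀)⁻¹ * x) * s) (fun h => hx ⟨h₀, by
        have : x = φ i h₀ * s * (s⁻¹ * ((φ i h₀)⁻¹ * x) * s) * s⁻¹ := by group
        rw [this, h]
        group⟩)
      refine ⟨A, inferInstance, ψ, hA, fun h hh e => ?_⟩
      have e1 : s⁻¹ * φ i (h⁻¹ * h₀) * s =
          (s⁻¹ * ((φ i h)⁻¹ * x) * s) * (s⁻¹ * ((φ i h₀)⁻¹ * x) * s)⁻¹ := by
        rw [map_mul, map_inv]
        group
      have hm : s⁻¹ * φ i (h⁻¹ * h₀) * s ∈ V := by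
        rw [e1]; exact V.mul_mem hh (V.inv_mem hh₀)
      have e2 : (⟨_, hm⟩ : V) = ⟨_, hh⟩ * (⟨_, hh₀⟩ : V)⁻¹ := Subtype.ext e1
      have e3 := hα _ hm (by rw [e2, map_mul, map_inv, e, e₀]; simp)
      rw [inv_mul_eq_one] at e3
      rw [e3]
      exact hψ
    · exact ⟨Unit, inferInstance, 1, amenable_of_finite, fun h hh e => absurd ⟨h, hh, e⟩ hb⟩
  obtain ⟨A, _, ψ, hA, hψ⟩ := hψ
  obtain ⟨B, _, Θ, hB, hΘ⟩ := hE (A × A₀) ((ψ.comp V.subtype).prod α) (hA.prod hA₀)
  refine ⟨B, inferInstance, Θ, hB, fun h hh => ?_⟩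
  obtain ⟨h1, h2⟩ := hΘ ((φ i h)⁻¹ * x) (by
    rw [map_mul, map_inv, PushoutI.of_apply_eq_base, map_mul, map_inv, hh, inv_mul_cancel])
  exact hψ h h1 (congrArg Prod.snd h2) (congrArg Prod.fst h2)

lemma ext_of_hom [DecidableEq ι] [Finite ι] (C : Subgroup G₀) [C.FiniteIndex]
    (V : ∀ i, Subgroup (G i))
    [hn : ∀ i, (V i).Normal] (hV : ∀ i h, φ i h ∈ V i ↔ h ∈ C) (T : ι → Type)
    [∀ i, Finite (T i)] (σ : ∀ i, T i → G i)
    (hσ : ∀ i (g : G i), ∃! p : (G₀ ⧸ C) × T i, (φ i p.1.out * σ i p.2)⁻¹ * g ∈ V i)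
    (i₀ : ι) (ω : (G₀ ⧸ C) × ∀ j, T j)
    (H : ∀ (A : Type) [Group A] (ψ : V i₀ →* A), IsAmenable A →
      ∃ (B : Type) (_ : Group B) (J : ∀ i, (∀ j, T j) → V i →* B) (b : ι → (∀ j, T j) → B)
        (w : (∀ j, T j) → C →* B), IsAmenable B ∧ (∀ i τ t, J i (update τ i t) = J i τ) ∧
        (∀ i τ (x : C) (hx : (σ i (τ i))⁻¹ * φ i x * σ i (τ i) ∈ V i),
          (b i τ)⁻¹ * J i τ ⟨_, hx⟩ * b i τ = w τ x) ∧ ∀ v, J i₀ ω.2 v = 1 → ψ v = 1) :
    Ext φ i₀ (V i₀) (φ i₀ ω.1.out * σ i₀ (ω.2 i₀)) := by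
  intro A _ ψ hA
  obtain ⟨B, _, J, b, w, hB, hJ, hw, hψ⟩ := H A ψ hA
  obtain ⟨Θ, h1, h2, -, -⟩ := exists_hom φ C V hV T σ hσ J hJ b w hw
  refine ⟨_, inferInstance, Θ, amenable_wr hB, fun g hg => ?_⟩
  have hgV : g ∈ V i₀ := (h1 i₀ g ω).mp (by rw [hg]; rfl)
  have hgs : (φ i₀ ω.1.out * σ i₀ (ω.2 i₀))⁻¹ * g * (φ i₀ ω.1.out * σ i₀ (ω.2 i₀)) ∈ V i₀ := by
    simpa using (hn i₀).conj_mem _ hgV (φ i₀ ω.1.out * σ i₀ (ω.2 i₀))⁻¹
  refine ⟨hgs, hψ _ ?_⟩
  have := h2 i₀ g ω hgs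
  rw [hg, Wr.one_f, eq_comm, mul_assoc, inv_mul_eq_one, eq_comm, mul_eq_right] at this
  exact this

/-- data for the finite case -/
lemma data_finite [Finite ι] [Finite G₀] (hφ : ∀ i, Injective (φ i))
    (hvr : ∀ i, VirtualRetract (φ i).range) (i₀ : ι) :
    ∃ (V : Subgroup (G i₀)) (s : G i₀) (A₀ : Type) (_ : Group A₀) (α : V →* A₀),
      Ext φ i₀ V s ∧ IsAmenable A₀ ∧
      ∀ h (hh : s⁻¹ * φ i₀ h * s ∈ V), α ⟨_, hh⟩ = 1 → h = 1 := by
  classical
  choose K hK hKle ρ hρ using hvr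
  have hfin : ∀ i, Finite (φ i).range := fun i =>
    Finite.of_surjective _ (φ i).rangeRestrict_surjective
  have hfi : ∀ i, ((ρ i).ker.map (K i).subtype).FiniteIndex := fun i => fi_map_subtype _ _
  let V : ∀ i, Subgroup (G i) := fun i => ((ρ i).ker.map (K i).subtype).normalCore
  have hV : ∀ i h, φ i h ∈ V i ↔ h ∈ (⊥ : Subgroup G₀) := by
    intro i h
    rw [mem_bot]
    constructor
    · intro hh
      obtain ⟨y, hy, e⟩ := normalCore_le _ hh
      have e1 : y = inclusion (hKle i) ⟨φ i h, h, rfl⟩ := Subtype.ext e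
      have e2 := MonoidHom.mem_ker.mp hy
      rw [e1, hρ] at e2
      exact hφ i ((congrArg Subtype.val e2).trans (map_one _).symm)
    · rintro rfl
      rw [map_one]
      exact one_mem _
  choose T hT σ hσ using fun i => exists_section (φ i) ⊥ (V i) (hV i)
  let ω : (G₀ ⧸ (⊥ : Subgroup G₀)) × ∀ j, T j := ((1 : G₀), fun j => (hσ j 1).exists.choose.2)
  refine ⟨V i₀, _, Unit, inferInstance, 1, ext_of_hom ⊥ V hV T σ hσ i₀ ω ?_, amenable_of_finite,
    fun h hh _ => ?_⟩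
  · intro A _ ψ hA
    refine ⟨A, inferInstance, fun i _ => update (fun i => (1 : V i →* A)) i₀ ψ i, fun _ _ => 1,
      fun _ => 1, hA, fun _ _ _ => rfl, ?_, fun v hv => by simpa using hv⟩
    rintro i τ ⟨x, hx'⟩ hx
    obtain rfl := mem_bot.mp hx'
    have : (⟨_, hx⟩ : V i) = 1 := Subtype.ext (by simp)
    rw [this]
    simp
  · have := (normalCore_normal _).conj_mem _ hh (φ i₀ ω.1.out * σ i₀ (ω.2 i₀))
    exact mem_bot.mp ((hV i₀ h).mp (by simpa [mul_assoc] using this))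

/-- data for the infinite case -/
lemma data_infinite [Finite ι] [Infinite G₀] (hφ : ∀ i, Injective (φ i))
    (h₀ : VirtuallyCyclic G₀) (hvr : ∀ i, VirtualRetract (φ i).range) (i₀ : ι) :
    ∃ (V : Subgroup (G i₀)) (s : G i₀) (A₀ : Type) (_ : Group A₀) (α : V →* A₀),
      Ext φ i₀ V s ∧ IsAmenable A₀ ∧
      ∀ h (hh : s⁻¹ * φ i₀ h * s ∈ V), α ⟨_, hh⟩ = 1 → h = 1 := by
  classical
  have := Fintype.ofFinite ι
  obtain ⟨C₁, hC₁, hC₁'⟩ := h₀
  choose K hK hKle ρ hρ using hvr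
  obtain ⟨c, V, hc, hcfi, hVn, hVfi, -, hV, hl⟩ := exists_compatible φ C₁ K
    (fun i => (MonoidHom.ofInjective (hφ i)).symm.toMonoidHom.comp (ρ i))
    (fun i h => hKle i ⟨h, rfl⟩) (fun i h => by
      have := hρ i ⟨φ i h, h, rfl⟩
      simp only [MulEquiv.toMonoidHom_eq_coe, MonoidHom.comp_apply, MonoidHom.coe_coe]
      rw [MulEquiv.symm_apply_eq]
      exact this) (fun _ => ⊤)
  choose l hl using hl
  choose T hT σ hσ using fun i => exists_section (φ i) (zpowers c) (V i) (hV i)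
  have hcV : ∀ i, φ i c ∈ V i := fun i => (hV i c).mpr (mem_zpowers c)
  have hm : ∀ i (g : G i) (x : G₀), x ∈ zpowers c → g⁻¹ * φ i x * g ∈ V i := fun i g x hx => by
    simpa using (hVn i).conj_mem _ ((hV i x).mpr hx) g⁻¹
  choose α hα using fun i => exists_generic_conj (V i) (φ i c) (hcV i) (l i) (hl i _) (σ i)
  let ct : ∀ i, T i → V i := fun i t => ⟨_, hm i (σ i t) c (mem_zpowers c)⟩
  let A : ∀ i, T i → ℤ := fun i t => (α i (ct i t)).toAdd
  have hA : ∀ i t, A i t ≠ 0 := fun i t h => hα i t _ (Multiplicative.toAdd.injective h)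
  let a : ι → (∀ j, T j) → ℤ := fun i τ => ∏ j ∈ Finset.univ.erase i, A j (τ j)
  have ha : ∀ i τ, a i τ ≠ 0 := fun i τ => Finset.prod_ne_zero_iff.mpr (fun j _ => hA _ _)
  have hau : ∀ i τ t, a i (update τ i t) = a i τ := by
    intro i τ t
    refine Finset.prod_congr rfl (fun j hj => ?_)
    rw [update_of_ne (Finset.ne_of_mem_erase hj)]
  have haA : ∀ i τ, a i τ * A i (τ i) = ∏ j, A j (τ j) := fun i τ => by
    rw [← Finset.mul_prod_erase _ _ (Finset.mem_univ i), mul_comm]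
  have hct : ∀ i t (k : ℤ) (h : (σ i t)⁻¹ * φ i (c ^ k) * σ i t ∈ V i),
      (⟨_, h⟩ : V i) = ct i t ^ k := by
    intro i t k h
    apply Subtype.ext
    simp only [ct, map_zpow, SubgroupClass.coe_zpow]
    have := conj_zpow (a := (σ i t)⁻¹) (b := φ i c) (i := k)
    simpa using this.symm
  let ω : (G₀ ⧸ zpowers c) × ∀ j, T j := ((1 : G₀), fun j => (hσ j 1).exists.choose.2)
  refine ⟨V i₀, _, Multiplicative ℤ, inferInstance, α i₀,
    ext_of_hom (zpowers c) V hV T σ hσ i₀ ω ?_, amenable_int, fun h hh e => ?_⟩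
  · intro A' _ ψ hA'
    let π : V i₀ →* A' × Multiplicative ℤ := ψ.prod (α i₀ ^ (a i₀ ω.2))
    obtain ⟨B, _, κ, z, hB, hκ, hz⟩ := conj_all (hA'.prod amenable_int) (MonoidHom.snd _ _)
      (Set.range (fun t => π (ct i₀ t))) (Set.finite_range _) (by
        rintro _ ⟨t, rfl⟩
        simpa [π] using ⟨ha _ _, hA _ _⟩)
    let J₀ : ∀ i, ℤ → V i →* B := fun i n => (zpowersHom B z).comp (α i ^ n)
    let J₁ : ∀ i, ℤ → V i →* B :=
      update J₀ i₀ (fun n => if n = a i₀ ω.2 then κ.comp π else J₀ i₀ n)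
    have hJ₀ : ∀ i n t, J₀ i n (ct i t) = z ^ (n * A i t) := fun i n t => by
      simp [J₀, A]
    have hJ₁ : ∀ i n t, ∃ b : B, b⁻¹ * J₁ i n (ct i t) * b = z ^ (n * A i t) := by
      intro i n t
      by_cases hi : i = i₀
      · subst hi
        simp only [J₁, update_self]
        split_ifs with hn
        · obtain ⟨u, hu⟩ := isConj_iff.mp (hz _ ⟨t, rfl⟩)
          refine ⟨u⁻¹, ?_⟩
          rw [inv_inv, MonoidHom.comp_apply, hu, hn]
          simp [π, A]
        · exact ⟨1, by rw [hJ₀]; simp⟩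
      · simp only [J₁, update_of_ne hi]
        exact ⟨1, by rw [hJ₀]; simp⟩
    choose b hb using hJ₁
    let w : (∀ j, T j) → zpowers c →* B := fun τ => MonoidHom.mk'
      (fun x => J₀ i₀ (a i₀ τ) ⟨_, hm i₀ (σ i₀ (τ i₀)) x x.2⟩) (by
        intro x y
        rw [← map_mul]
        congr 1
        apply Subtype.ext
        simp only [coe_mul, map_mul]
        group)
    refine ⟨B, inferInstance, fun i τ => J₁ i (a i τ), fun i τ => b i (a i τ) (τ i), w, hB,
      fun i τ t => congrArg (J₁ i) (hau i τ t), ?_, fun v hv => ?_⟩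
    · rintro i τ ⟨x, hx'⟩ hx
      obtain ⟨k, rfl⟩ := mem_zpowers_iff.mp hx'
      simp only [w, MonoidHom.mk'_apply]
      rw [hct, hct, map_zpow, map_zpow, hJ₀, haA, ← haA i τ, ← hb]
      have := conj_zpow (a := (b i (a i τ) (τ i))⁻¹) (b := J₁ i (a i τ) (ct i (τ i))) (i := k)
      simpa using this.symm
    · simp only [J₁, update_self, if_true, MonoidHom.comp_apply] at hv
      exact congrArg Prod.fst (hκ (hv.trans (map_one κ).symm))
  · have h1 : φ i₀ (ω.1.out⁻¹ * h * ω.1.out) ∈ V i₀ := by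
      have := (hVn i₀).conj_mem _ hh (σ i₀ (ω.2 i₀))
      simpa [mul_assoc] using this
    obtain ⟨k, hk⟩ := mem_zpowers_iff.mp ((hV i₀ _).mp h1)
    have e1 : (⟨_, hh⟩ : V i₀) = ct i₀ (ω.2 i₀) ^ k := by
      rw [← hct i₀ _ k (hm _ _ _ (zpow_mem_zpowers c k))]
      apply Subtype.ext
      simp only [hk, map_mul, map_inv]
      group
    rw [e1, map_zpow] at e
    have e2 := congrArg Multiplicative.toAdd e
    rw [toAdd_zpow, smul_eq_mul, toAdd_one, mul_eq_zero] at e2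
    have e3 : k = 0 := e2.resolve_right (hA _ _)
    rw [e3, zpow_zero] at hk
    have : h = ω.1.out * (ω.1.out⁻¹ * h * ω.1.out) * ω.1.out⁻¹ := by group
    rw [this, ← hk]
    group

theorem main [Finite ι] [Nonempty ι] (φ : ∀ i, G₀ →* G i) (hφ : ∀ i, Injective (φ i))
    (h₀ : VirtuallyCyclic G₀) (hG : ∀ i, ResiduallyAmenable (G i))
    (hvr : ∀ i, VirtualRetract (φ i).range) : ResiduallyAmenable (PushoutI φ) := by
  have hdata : ∀ i₀, ∃ (V : Subgroup (G i₀)) (s : G i₀) (A₀ : Type) (_ : Group A₀) (α : V →* A₀),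
      Ext φ i₀ V s ∧ IsAmenable A₀ ∧
      ∀ h (hh : s⁻¹ * φ i₀ h * s ∈ V), α ⟨_, hh⟩ = 1 → h = 1 := by
    intro i₀
    cases finite_or_infinite G₀
    · exact data_finite hφ hvr i₀
    · exact data_infinite hφ h₀ hvr i₀
  intro g hg
  obtain ⟨h, rfl | ⟨n, i, l, w, hw, rfl⟩⟩ := normal_form g
  · obtain ⟨i₀⟩ := ‹Nonempty ι›
    obtain ⟨V, s, A₀, _, α, h1, h2, h3⟩ := hdata i₀
    obtain ⟨B, _, Θ, hB, hΘ⟩ := h1 A₀ α h2
    refine ⟨B, inferInstance, Θ, hB, fun hh => hg ?_⟩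
    obtain ⟨h4, h5⟩ := hΘ (φ i₀ h) (by rw [PushoutI.of_apply_eq_base]; exact hh)
    rw [h3 h h4 h5, map_one]
  · obtain ⟨A, _, Θ, hA, hΘ⟩ := sep_words (fun i x hx => by
      obtain ⟨V, s, A₀, _, α, h1, h2, h3⟩ := hdata i
      exact sep_of_ext i (hG i) V s h1 h2 α h3 x hx) n i l w hw
    refine ⟨A, inferInstance, Θ, hA, fun hh => hΘ.prop h⁻¹ ?_⟩
    rw [map_mul, mul_eq_one_iff_inv_eq] at hh
    rw [map_inv, map_inv, hh]

end Pool.Agent.P.MP_71554c_al
end
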